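import Pool.Agent.N124.CU.Stm2

/-!
# Project CU (helper124), file PTS (helper247): the orders at the special points of the two arms
-/

set_option autoImplicit false

open Filter Topology

namespace Pool.Agent.N247.CU

open Pool.Agent.N124.CU

theorem tendsto_of_pair (hpair : S_pair) {x : Fin 13 → ℝ} (K : Fld x) (k3 k2 : Kd)
    (u3 v3 u2 v2 : ℂ → ℂ) (a3 c3 a2 c2 : ℂ) (T3 : Ty k3 u3 v3 a3 c3) (T2 : Ty k2 u2 v2 a2 c2)
    (m1 : a3 ∈ K.K SL) (m2 : c3 ∈ K.K SL) (m3 : a2 ∈ K.K SL) (m4 : c2 ∈ K.K SL)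
    (n1 : a3 ≠ 0) (n2 : c3 ≠ 0) (n3 : a2 ≠ 0) (n4 : c2 ≠ 0)
    (hII : k3 = .I → k2 = .I → c3 ≠ c2) :
    ∃ c : ℂ, c ≠ 0 ∧ Tendsto (fun s => s ^ nn k3 k2 * Fx x (u3 s) (v3 s) (u2 s) (v2 s))
      (𝓝[≠] 0) (𝓝 c) := by
  have s2 : K.K SL ≤ K.K {j | j ≠ 9} := K.mono _ _ fun j hj => hj.1
  have s3 : K.K SL ≤ K.K {j | j ≠ 11} := K.mono _ _ fun j hj => hj.2
  have g2 : (x 4 : ℂ) ∈ K.K {j | j ≠ 9} := K.mem _ _ (by decide)
  have g3 : (x 4 : ℂ) ∈ K.K {j | j ≠ 11} := K.mem _ _ (by decide)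
  refine hpair (K.K {j | j ≠ 9}) (K.K {j | j ≠ 11}) (K.root _) (K.root _) (x 4)
    ((x 4 : ℂ) - x 9) ((x 4 : ℂ) - x 11) g2 g3 ?_ ?_ ?_ ?_ k3 k2 u3 v3 u2 v2 a3 c3 a2 c2 T3 T2
    (s2 m1) (s2 m2) (s2 m3) (s2 m4) (s3 m1) (s3 m2) (s3 m3) (s3 m4) n1 n2 n3 n4 hII
  · intro h
    refine K.not_mem {j | j ≠ 9} 9 (fun h => h rfl) ?_
    have := sub_mem g2 h
    rwa [sub_sub_cancel] at this
  · exact sub_mem g2 (K.mem _ _ (by decide))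
  · exact sub_mem g3 (K.mem _ _ (by decide))
  · intro h
    refine K.not_mem {j | j ≠ 11} 11 (fun h => h rfl) ?_
    have := sub_mem g3 h
    rwa [sub_sub_cancel] at this

theorem ord_of (hpair : S_pair) (hprod : S_prod) {x : Fin 13 → ℝ} (K : Fld x) (z : ℂ)
    (k3 k2 : Fin 4 → Kd) (u3 v3 u2 v2 : Fin 4 → ℂ → ℂ) (a3 c3 a2 c2 : Fin 4 → ℂ)
    (D3 : Desc (arm3 x) z k3 u3 v3 a3 c3) (D2 : Desc (arm2 x) z k2 u2 v2 a2 c2)
    (N3 : Nice (K.K SL) a3 c3) (N2 : Nice (K.K SL) a2 c2)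
    (hII : ∀ i j, k3 i = .I → k2 j = .I → c3 i ≠ c2 j) :
    ∃ c : ℂ, c ≠ 0 ∧ Tendsto (fun s => s ^ (∑ i, ∑ j, nn (k3 i) (k2 j)) * NN x (z + s))
      (𝓝[≠] 0) (𝓝 c) := by
  refine hprod x z k3 k2 u3 v3 u2 v2 a3 c3 a2 c2 D3 D2 (fun i j => nn (k3 i) (k2 j)) ?_
  intro i j
  obtain ⟨p1, p2, p3, p4⟩ := N3 i
  obtain ⟨q1, q2, q3, q4⟩ := N2 j
  exact tendsto_of_pair hpair K (k3 i) (k2 j) _ _ _ _ _ _ _ _ (D3.2 i) (D2.2 j) p1 p2 q1 q2 p3 p4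
    q3 q4 (hII i j)

theorem mem_SL2 {x : Fin 13 → ℝ} (K : Fld x) (j : Fin 13) (h : j ≠ 4 ∧ j ≠ 9 ∧ j ≠ 11 ∧ j ≠ 10) :
    (x j : ℂ) ∈ K.K SL2 := K.mem _ _ h

theorem mem_SL3 {x : Fin 13 → ℝ} (K : Fld x) (j : Fin 13) (h : j ≠ 4 ∧ j ≠ 9 ∧ j ≠ 11 ∧ j ≠ 12) :
    (x j : ℂ) ∈ K.K SL3 := K.mem _ _ h

theorem t_pts3 : S_pts3 := by
  intro harms harmr hpair hprod hgen x K hreg
  obtain ⟨G3, G2⟩ := hgen x K
  obtain ⟨u3, v3, a3, c3, D3, N3⟩ := harms (arm3 x) (K.K SL3) (K.K SL) G3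
  have hz : (arm3 x).ws ∈ K.K SL2 := by
    unfold Par.ws arm3
    exact div_mem (sub_mem (mem_SL2 K 7 (by decide)) (mem_SL2 K 1 (by decide)))
      (sub_mem (mem_SL2 K 0 (by decide)) (mem_SL2 K 5 (by decide)))
  obtain ⟨u2, v2, a2, c2, D2, N2⟩ := harmr (arm2 x) (K.K SL2) (K.K SL) _ G2 hreg hz
  obtain ⟨c, hc, hT⟩ := ord_of hpair hprod K _ _ _ _ _ _ _ _ _ _ _ D3 D2 N3 N2 (by
    intro i j _ h
    fin_cases j <;> simp at h)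
  refine ⟨c, hc, ?_⟩
  have e : (∑ i : Fin 4, ∑ j : Fin 4, nn ((![.I, .F, .F, .F] : Fin 4 → Kd) i)
      ((![.F, .F, .F, .F] : Fin 4 → Kd) j)) = ((8 : ℕ) : ℤ) := by
    simp [Fin.sum_univ_four, nn]
  rw [e] at hT
  simpa only [zpow_natCast] using hT

theorem t_pts2 : S_pts2 := by
  intro harms harmr hpair hprod hgen x K hreg
  obtain ⟨G3, G2⟩ := hgen x K
  obtain ⟨u2, v2, a2, c2, D2, N2⟩ := harms (arm2 x) (K.K SL2) (K.K SL) G2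
  have hz : (arm2 x).ws ∈ K.K SL3 := by
    unfold Par.ws arm2
    exact div_mem (sub_mem (mem_SL3 K 8 (by decide)) (mem_SL3 K 1 (by decide)))
      (sub_mem (mem_SL3 K 0 (by decide)) (mem_SL3 K 6 (by decide)))
  obtain ⟨u3, v3, a3, c3, D3, N3⟩ := harmr (arm3 x) (K.K SL3) (K.K SL) _ G3 hreg hz
  obtain ⟨c, hc, hT⟩ := ord_of hpair hprod K _ _ _ _ _ _ _ _ _ _ _ D3 D2 N3 N2 (by
    intro i j h _
    fin_cases i <;> simp at h)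
  refine ⟨c, hc, ?_⟩
  have e : (∑ i : Fin 4, ∑ j : Fin 4, nn ((![.F, .F, .F, .F] : Fin 4 → Kd) i)
      ((![.I, .F, .F, .F] : Fin 4 → Kd) j)) = ((8 : ℕ) : ℤ) := by
    simp [Fin.sum_univ_four, nn]
  rw [e] at hT
  simpa only [zpow_natCast] using hT

theorem tendsto_add (z : ℂ) : Tendsto (fun s : ℂ => z + s) (𝓝[≠] 0) (𝓝 z) := by
  have h : Tendsto (fun s : ℂ => z + s) (𝓝 0) (𝓝 (z + 0)) :=
    (continuous_const.add continuous_id).tendsto 0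
  rw [add_zero] at h
  exact h.mono_left nhdsWithin_le_nhds

theorem t_nz : S_nz := by
  intro harmr hpair hprod hgen hcont x K z hz r3 r2
  obtain ⟨G3, G2⟩ := hgen x K
  have hz3 : z ∈ K.K SL3 := K.mono SZ SL3 (by
    rintro j (h | h | h | h | h | h) <;> (rw [h]; exact ⟨by decide, by decide, by decide, by decide⟩)) hz
  have hz2 : z ∈ K.K SL2 := K.mono SZ SL2 (by
    rintro j (h | h | h | h | h | h) <;> (rw [h]; exact ⟨by decide, by decide, by decide, by decide⟩)) hz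
  obtain ⟨u3, v3, a3, c3, D3, N3⟩ := harmr (arm3 x) (K.K SL3) (K.K SL) z G3 r3 hz3
  obtain ⟨u2, v2, a2, c2, D2, N2⟩ := harmr (arm2 x) (K.K SL2) (K.K SL) z G2 r2 hz2
  obtain ⟨c, hc, hT⟩ := ord_of hpair hprod K _ _ _ _ _ _ _ _ _ _ _ D3 D2 N3 N2 (by
    intro i j _ h
    fin_cases j <;> simp at h)
  have e : (∑ i : Fin 4, ∑ j : Fin 4, nn ((![.F, .F, .F, .F] : Fin 4 → Kd) i)
      ((![.F, .F, .F, .F] : Fin 4 → Kd) j)) = 0 := by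
    simp [Fin.sum_univ_four, nn]
  rw [e] at hT
  simp only [zpow_zero, one_mul] at hT
  have h2 : Tendsto (fun s => NN x (z + s)) (𝓝[≠] 0) (𝓝 (NN x z)) :=
    (hcont x z r3 r2).tendsto.comp (tendsto_add z)
  rw [tendsto_nhds_unique h2 hT]
  exact hc

theorem t_img : S_img := by
  intro hinv x z n h0 h1 hz hreg hord
  have h0' : (x 0 : ℂ) ≠ 0 := Complex.ofReal_ne_zero.2 h0
  have h1' : (x 1 : ℂ) ≠ 0 := Complex.ofReal_ne_zero.2 h1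
  obtain ⟨c, hc, hT⟩ := hord
  set z' : ℂ := x 1 / (x 0 * z) with hz'
  have z0 : z' ≠ 0 := div_ne_zero h1' (mul_ne_zero h0' hz)
  have ezz : (x 1 : ℂ) / (x 0 * z') = z := by
    rw [hz']
    field_simp
  have hne : ∀ᶠ s : ℂ in 𝓝[≠] 0, z' + s ≠ 0 :=
    (tendsto_add z').eventually (isOpen_ne.mem_nhds z0)
  have hs0 : ∀ᶠ s : ℂ in 𝓝[≠] 0, s ≠ 0 := self_mem_nhdsWithin
  set wt : ℂ → ℂ := fun s => (x 1 : ℂ) / (x 0 * (z' + s)) with hwt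
  have hwd : ∀ s, z' + s ≠ 0 → wt s - z = -(x 1 * s / (x 0 * z' * (z' + s))) := by
    intro s hs
    rw [← ezz, hwt]
    field_simp
    ring
  have hwlim : Tendsto wt (𝓝[≠] 0) (𝓝 z) := by
    rw [← ezz]
    refine Tendsto.div tendsto_const_nhds (tendsto_const_nhds.mul (tendsto_add z')) ?_
    exact mul_ne_zero h0' z0
  have hwne : ∀ᶠ s : ℂ in 𝓝[≠] 0, wt s - z ≠ 0 := by
    filter_upwards [hne, hs0] with s a b
    rw [hwd s a]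
    exact neg_ne_zero.2 (div_ne_zero (mul_ne_zero h1' b) (mul_ne_zero (mul_ne_zero h0' z0) a))
  have hwT : Tendsto wt (𝓝[≠] 0) (𝓝[≠] z) := by
    rw [tendsto_nhdsWithin_iff]
    refine ⟨hwlim, ?_⟩
    filter_upwards [hwne] with s a
    exact sub_ne_zero.1 a
  have hwT' : Tendsto (fun s => wt s - z) (𝓝[≠] 0) (𝓝[≠] 0) := by
    rw [tendsto_nhdsWithin_iff]
    refine ⟨?_, hwne⟩
    have := hwlim.sub_const z
    rwa [sub_self] at this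
  have e1 := hT.comp hwT'
  have e2 : Tendsto (fun s => (-(x 0 * z' * (z' + s)) / x 1) ^ n) (𝓝[≠] 0)
      (𝓝 ((-(x 0 * z' * z') / x 1) ^ n)) :=
    (((tendsto_const_nhds.mul (tendsto_add z')).neg).div_const _).pow n
  refine ⟨(-(x 0 * z' * z') / x 1) ^ n * c, mul_ne_zero (pow_ne_zero _ (div_ne_zero
    (neg_ne_zero.2 (mul_ne_zero (mul_ne_zero h0' z0) z0)) h1')) hc, ?_⟩
  refine (e2.mul e1).congr' ?_
  filter_upwards [hne, hs0, hwne, hwT.eventually hreg] with s a b w ⟨r3, r2⟩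
  have h4 := hinv x (wt s) h0 h1 r3 r2
  have h5 : (x 1 : ℂ) / (x 0 * wt s) = z' + s := by
    rw [hwt]
    field_simp
  rw [h5] at h4
  show (-(x 0 * z' * (z' + s)) / x 1) ^ n * ((wt s - z) ^ n * NN x (z + (wt s - z))) =
    s ^ n * NN x (z' + s)
  rw [h4, add_sub_cancel, ← mul_assoc, ← mul_pow, hwd s a]
  congr 2
  field_simp

end Pool.Agent.N247.CU
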